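import Mathlib

/-!
# Traceless matrices: spanning sets, perfectness, simplicity
-/

set_option autoImplicit false

namespace Pool.Agent.Q75.EX

open Matrix

variable {K : Type} [Field K] {I : Type} [Fintype I] [DecidableEq I]

theorem sne {i j k l : I} (h : j ≠ k) :
    Matrix.single i j (1 : K) * Matrix.single k l (1 : K) = 0 :=
  Matrix.single_mul_single_of_ne (1 : K) i j k h (1 : K)

theorem ssa (i j l : I) :
    Matrix.single i j (1 : K) * Matrix.single j l (1 : K) = Matrix.single i l (1 : K) := by
  rw [Matrix.single_mul_single_same, one_mul]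

/-- a subspace with the elementary matrices off the diagonal and the differences on the diagonal -/
theorem sl_le (U : Submodule K (Matrix I I K)) (h1 : ∀ i j, i ≠ j → Matrix.single i j (1 : K) ∈ U)
    (h2 : ∀ i j, i ≠ j → Matrix.single i i (1 : K) - Matrix.single j j 1 ∈ U) (x : Matrix I I K)
    (hx : x.trace = 0) : x ∈ U := by
  rcases isEmpty_or_nonempty I with hI | ⟨⟨k⟩⟩
  · have : x = 0 := by
      ext i
      exact (hI.false i).elim
    rw [this]
    exact U.zero_mem
  have h3 : x = ∑ i, ∑ j, (if i = j then x i i • (Matrix.single i i (1 : K) - Matrix.single k k 1)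
      else x i j • Matrix.single i j (1 : K)) := by
    have e1 : ∀ i, ∑ j, (if i = j then x i i • (Matrix.single i i (1 : K) - Matrix.single k k 1)
        else x i j • Matrix.single i j (1 : K)) =
        ∑ j, x i j • Matrix.single i j (1 : K) - x i i • Matrix.single k k 1 := by
      intro i
      rw [eq_sub_iff_add_eq, ← Finset.add_sum_erase _ _ (Finset.mem_univ i),
        ← Finset.add_sum_erase _ (fun j => x i j • Matrix.single i j (1 : K)) (Finset.mem_univ i)]
      have e2 : ∑ j ∈ Finset.univ.erase i, (if i = j then x i i • (Matrix.single i i (1 : K) -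
          Matrix.single k k 1) else x i j • Matrix.single i j (1 : K)) =
          ∑ j ∈ Finset.univ.erase i, x i j • Matrix.single i j (1 : K) := by
        refine Finset.sum_congr rfl fun j hj => ?_
        rw [if_neg (Ne.symm (Finset.ne_of_mem_erase hj))]
      rw [e2, if_pos rfl, smul_sub]
      abel
    rw [Finset.sum_congr rfl fun i _ => e1 i, Finset.sum_sub_distrib, ← Finset.sum_smul]
    have e3 : ∑ i, x i i = 0 := hx
    rw [e3, zero_smul, sub_zero]
    conv_lhs => rw [Matrix.matrix_eq_sum_single x]
    refine Finset.sum_congr rfl fun i _ => Finset.sum_congr rfl fun j _ => ?_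
    rw [Matrix.smul_single, smul_eq_mul, mul_one]
  rw [h3]
  refine Submodule.sum_mem _ fun i _ => Submodule.sum_mem _ fun j _ => ?_
  split_ifs with hij
  · by_cases hik : i = k
    · rw [hik, sub_self, smul_zero]
      exact U.zero_mem
    · exact U.smul_mem _ (h2 i k hik)
  · exact U.smul_mem _ (h1 i j hij)

theorem trace_single_ne {i j : I} (h : i ≠ j) : (Matrix.single i j (1 : K)).trace = 0 :=
  Matrix.trace_single_eq_of_ne i j 1 h

theorem trace_diff (i j : I) :
    (Matrix.single i i (1 : K) - Matrix.single j j 1).trace = 0 := by
  rw [Matrix.trace_sub, Matrix.trace_single_eq_same, Matrix.trace_single_eq_same, sub_self]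

/-- traceless matrices are combinations of brackets of traceless matrices -/
theorem sl_perfect [CharZero K] (x : Matrix I I K) (hx : x.trace = 0) :
    x ∈ Submodule.span K {z : Matrix I I K | ∃ a b, a.trace = 0 ∧ b.trace = 0 ∧
      z = a * b - b * a} := by
  refine sl_le _ ?_ ?_ x hx
  · intro i j hij
    have h1 : Matrix.single i j (1 : K) = (2 : K)⁻¹ •
        ((Matrix.single i i (1 : K) - Matrix.single j j 1) * Matrix.single i j 1 -
          Matrix.single i j 1 * (Matrix.single i i (1 : K) - Matrix.single j j 1)) := by
      rw [sub_mul, mul_sub, ssa, ssa, sne (Ne.symm hij), sne (Ne.symm hij)]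
      rw [sub_zero, zero_sub, sub_neg_eq_add, ← two_smul K, smul_smul, inv_mul_cancel₀ two_ne_zero,
        one_smul]
    rw [h1]
    refine Submodule.smul_mem _ _ (Submodule.subset_span ⟨_, _, trace_diff i j,
      trace_single_ne hij, rfl⟩)
  · intro i j hij
    refine Submodule.subset_span ⟨Matrix.single i j 1, Matrix.single j i 1, trace_single_ne hij,
      trace_single_ne (Ne.symm hij), ?_⟩
    rw [ssa, ssa]

/-- simplicity -/
theorem sl_simple [CharZero K] (U : Submodule K (Matrix I I K)) (hU : ∀ x ∈ U, x.trace = 0)
    (hs : ∀ i j, i ≠ j → ∀ x ∈ U, Matrix.single i j 1 * x - x * Matrix.single i j 1 ∈ U)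
    (hne : U ≠ ⊥) (x : Matrix I I K) (hx : x.trace = 0) : x ∈ U := by
  -- one elementary matrix
  have h0 : ∃ i j, i ≠ j ∧ Matrix.single i j (1 : K) ∈ U := by
    obtain ⟨y, hy, hy0⟩ := (Submodule.ne_bot_iff _).1 hne
    by_cases hd : ∃ i j, i ≠ j ∧ y j i ≠ 0
    · obtain ⟨i, j, hij, hyji⟩ := hd
      refine ⟨i, j, hij, ?_⟩
      have h1 := hs i j hij _ (hs i j hij y hy)
      have h2 : Matrix.single i j (1 : K) * (Matrix.single i j 1 * y - y * Matrix.single i j 1) -
          (Matrix.single i j 1 * y - y * Matrix.single i j 1) * Matrix.single i j 1 =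
          (-2 * y j i) • Matrix.single i j 1 := by
        have e1 : Matrix.single i j (1 : K) * Matrix.single i j 1 = 0 :=
          sne (Ne.symm hij)
        have e2 : Matrix.single i j (1 : K) * y * Matrix.single i j 1 =
            y j i • Matrix.single i j 1 := by
          ext a b
          simp only [Matrix.mul_apply, Matrix.smul_apply, Matrix.single_apply, smul_eq_mul]
          by_cases ha : i = a
          · by_cases hb : j = b
            · subst ha; subst hb
              simp [Finset.sum_ite_eq]
            · simp [hb]
          · simp [ha]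
        rw [mul_sub, sub_mul, ← Matrix.mul_assoc, e1, Matrix.zero_mul, zero_sub,
          Matrix.mul_assoc y, e1, Matrix.mul_zero, sub_zero, ← Matrix.mul_assoc, e2]
        rw [← neg_smul, ← sub_smul]
        congr 1
        ring
      rw [h2] at h1
      have h3 := U.smul_mem ((-2 * y j i)⁻¹) h1
      rwa [smul_smul, inv_mul_cancel₀ (mul_ne_zero (by norm_num) hyji), one_smul] at h3
    · push Not at hd
      have h1 : ∃ i j, i ≠ j ∧ y i i ≠ y j j := by
        by_contra hcon
        push Not at hcon
        apply hy0
        have h2 : ∀ i, y i i = 0 := by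
          intro i
          have h3 : y.trace = Fintype.card I * y i i := by
            unfold Matrix.trace
            rw [Finset.sum_congr rfl fun j _ => show y.diag j = y i i from ?_, Finset.sum_const,
              nsmul_eq_mul, Finset.card_univ]
            by_cases hij : j = i
            · rw [hij]; rfl
            · exact hcon j i hij
          rw [hU y hy] at h3
          have h4 : (Fintype.card I : K) ≠ 0 := by
            have : 0 < Fintype.card I := Fintype.card_pos_iff.2 ⟨i⟩
            exact_mod_cast this.ne'
          rcases mul_eq_zero.1 h3.symm with h5 | h5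
          · exact absurd h5 h4
          · exact h5
        ext a b
        by_cases hab : a = b
        · rw [hab, h2]; rfl
        · rw [hd b a (Ne.symm hab)]; rfl
      obtain ⟨i, j, hij, hne'⟩ := h1
      refine ⟨i, j, hij, ?_⟩
      have h2 := hs i j hij y hy
      have h3 : Matrix.single i j (1 : K) * y - y * Matrix.single i j 1 =
          (y j j - y i i) • Matrix.single i j 1 := by
        ext a b
        simp only [Matrix.mul_apply, Matrix.sub_apply, Matrix.smul_apply, Matrix.single_apply,
          smul_eq_mul]
        by_cases ha : i = a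
        · by_cases hb : j = b
          · subst ha; subst hb
            simp
          · subst ha
            by_cases hb' : j = b
            · exact absurd hb' hb
            · simp [hb, hd b j (Ne.symm hb)]
        · by_cases hb : j = b
          · subst hb
            simp [ha, hd i a ha]
          · simp [ha, hb]
      rw [h3] at h2
      have h4 := U.smul_mem ((y j j - y i i)⁻¹) h2
      rwa [smul_smul, inv_mul_cancel₀ (sub_ne_zero.2 (Ne.symm hne')), one_smul] at h4
  -- moving the indices
  have mvr : ∀ i j l, i ≠ j → i ≠ l → j ≠ l → Matrix.single i j (1 : K) ∈ U →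
      Matrix.single i l (1 : K) ∈ U := by
    intro i j l hij hil hjl h
    have h1 := hs j l hjl _ h
    rw [sne (Ne.symm hil), ssa, zero_sub] at h1
    exact (Submodule.neg_mem_iff U).1 h1
  have mvl : ∀ i j k, i ≠ j → k ≠ i → k ≠ j → Matrix.single i j (1 : K) ∈ U →
      Matrix.single k j (1 : K) ∈ U := by
    intro i j k hij hki hkj h
    have h1 := hs k i hki _ h
    rw [ssa, sne (Ne.symm hkj), sub_zero] at h1
    exact h1
  have swp : ∀ i j, i ≠ j → Matrix.single i j (1 : K) ∈ U → Matrix.single j i (1 : K) ∈ U := by
    intro i j hij h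
    have h1 := hs j i (Ne.symm hij) _ (hs j i (Ne.symm hij) _ h)
    have h2 : Matrix.single j i (1 : K) * (Matrix.single j i 1 * Matrix.single i j 1 -
        Matrix.single i j 1 * Matrix.single j i 1) - (Matrix.single j i 1 * Matrix.single i j 1 -
        Matrix.single i j 1 * Matrix.single j i 1) * Matrix.single j i 1 =
        (-2 : K) • Matrix.single j i 1 := by
      rw [ssa, ssa, mul_sub, sub_mul, ssa, ssa, sne hij, sne hij]
      rw [zero_sub, sub_zero, neg_smul, two_smul]
      abel
    rw [h2] at h1
    have h3 := U.smul_mem ((-2 : K)⁻¹) h1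
    rwa [smul_smul, inv_mul_cancel₀ (by norm_num), one_smul] at h3
  obtain ⟨i, j, hij, hE⟩ := h0
  have hall : ∀ k l, k ≠ l → Matrix.single k l (1 : K) ∈ U := by
    intro k l hkl
    by_cases hki : k = i
    · subst hki
      by_cases hlj : l = j
      · rw [hlj]; exact hE
      · exact mvr k j l hij hkl (Ne.symm hlj) hE
    · by_cases hkj : k = j
      · subst hkj
        have h1 := swp i k hij hE
        by_cases hli : l = i
        · rw [hli]; exact h1
        · exact mvr k i l hki hkl (Ne.symm hli) h1
      · have h1 := mvl i j k hij hki hkj hE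
        by_cases hlj : l = j
        · rw [hlj]; exact h1
        · exact mvr k j l hkj hkl (Ne.symm hlj) h1
  refine sl_le U hall (fun i j hij => ?_) x hx
  have h1 := hs i j hij _ (hall j i (Ne.symm hij))
  rw [ssa, ssa] at h1
  exact h1

end Pool.Agent.Q75.EX
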