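import Pool.Agent.Q50.EX.Spec
import Pool.Agent.Q75.EX.Sl

/-!
# Two blocks (J8)
-/

set_option autoImplicit false

namespace Pool.Agent.Q75.EX

open Matrix Pool.Agent.Q50.EX Pool.Agent.Q50.LR Pool.Agent.Q50.SR Kronecker

theorem finrank_sl (K : Type) [Field K] (I : Type) [Fintype I] [DecidableEq I] [Nonempty I] :
    Module.finrank K (LinearMap.ker (Matrix.traceLinearMap I K K)) + 1 =
      Fintype.card I * Fintype.card I := by
  have h1 := LinearMap.finrank_range_add_finrank_ker (Matrix.traceLinearMap I K K)
  have h2 : LinearMap.range (Matrix.traceLinearMap I K K) = ⊤ := by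
    rw [LinearMap.range_eq_top]
    intro t
    obtain ⟨i⟩ := ‹Nonempty I›
    exact ⟨Matrix.single i i t, Matrix.trace_single_eq_same i t⟩
  rw [h2, finrank_top, Module.finrank_self, Module.finrank_matrix, Module.finrank_self,
    mul_one] at h1
  omega

section Om

variable {K : Type} [Field K] {I J : Type} [Fintype I] [DecidableEq I] [Fintype J] [DecidableEq J]

/-- the tensor of a linear map between matrix spaces -/
def om (φ : Matrix J J K →ₗ[K] Matrix I I K) : Matrix (I × J) (I × J) K :=
  Matrix.of fun P Q => φ (Matrix.single Q.2 P.2 1) P.1 Q.1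

theorem om_apply (φ : Matrix J J K →ₗ[K] Matrix I I K) (p q : I) (i j : J) :
    om φ (p, j) (q, i) = φ (Matrix.single i j 1) p q := rfl

theorem mul_single_sum (b : Matrix J J K) (i j : J) :
    b * Matrix.single i j (1 : K) = ∑ i', b i' i • Matrix.single i' j (1 : K) := by
  ext r s
  rw [Matrix.sum_apply, Finset.sum_eq_single r]
  · rw [Matrix.mul_apply, Finset.sum_eq_single i]
    · simp [Matrix.single_apply]
    · intro k _ hk
      simp [Matrix.single_apply, Ne.symm hk]
    · intro h
      exact absurd (Finset.mem_univ _) h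
  · intro k _ hk
    simp [Matrix.single_apply, hk]
  · intro h
    exact absurd (Finset.mem_univ _) h

theorem single_mul_sum (b : Matrix J J K) (i j : J) :
    Matrix.single i j (1 : K) * b = ∑ j', b j j' • Matrix.single i j' (1 : K) := by
  ext r s
  rw [Matrix.sum_apply, Finset.sum_eq_single s]
  · rw [Matrix.mul_apply, Finset.sum_eq_single j]
    · simp [Matrix.single_apply]
    · intro k _ hk
      simp [Matrix.single_apply, Ne.symm hk]
    · intro h
      exact absurd (Finset.mem_univ _) h
  · intro k _ hk
    simp [Matrix.single_apply, hk]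
  · intro h
    exact absurd (Finset.mem_univ _) h

theorem om_comm (φ : Matrix J J K →ₗ[K] Matrix I I K) (a : Matrix I I K) (b : Matrix J J K)
    (h : ∀ Z, φ (b * Z - Z * b) = a * φ Z - φ Z * a) :
    om φ * (a ⊗ₖ (1 : Matrix J J K) + (1 : Matrix I I K) ⊗ₖ b) =
      (a ⊗ₖ (1 : Matrix J J K) + (1 : Matrix I I K) ⊗ₖ b) * om φ := by
  have e1 : ∀ p q i j, (om φ * (a ⊗ₖ (1 : Matrix J J K))) (p, j) (q, i) =
      (φ (Matrix.single i j 1) * a) p q := by
    intro p q i j
    rw [Matrix.mul_apply, Fintype.sum_prod_type, Matrix.mul_apply]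
    refine Finset.sum_congr rfl fun q' _ => ?_
    rw [Finset.sum_eq_single i]
    · rw [om_apply, Matrix.kroneckerMap_apply, Matrix.one_apply_eq, mul_one]
    · intro i' _ hi
      rw [Matrix.kroneckerMap_apply, Matrix.one_apply_ne hi, mul_zero, mul_zero]
    · intro h
      exact absurd (Finset.mem_univ _) h
  have e2 : ∀ p q i j, (om φ * ((1 : Matrix I I K) ⊗ₖ b)) (p, j) (q, i) =
      φ (b * Matrix.single i j 1) p q := by
    intro p q i j
    rw [mul_single_sum, map_sum, Matrix.sum_apply, Matrix.mul_apply, Fintype.sum_prod_type,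
      Finset.sum_eq_single q]
    · refine Finset.sum_congr rfl fun i' _ => ?_
      rw [om_apply, Matrix.kroneckerMap_apply, Matrix.one_apply_eq, one_mul, map_smul,
        Matrix.smul_apply, smul_eq_mul, mul_comm]
    · intro q' _ hq
      refine Finset.sum_eq_zero fun i' _ => ?_
      rw [Matrix.kroneckerMap_apply, Matrix.one_apply_ne hq, zero_mul, mul_zero]
    · intro h
      exact absurd (Finset.mem_univ _) h
  have e3 : ∀ p q i j, ((a ⊗ₖ (1 : Matrix J J K)) * om φ) (p, j) (q, i) =
      (a * φ (Matrix.single i j 1)) p q := by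
    intro p q i j
    rw [Matrix.mul_apply, Fintype.sum_prod_type, Matrix.mul_apply]
    refine Finset.sum_congr rfl fun q' _ => ?_
    rw [Finset.sum_eq_single j]
    · rw [om_apply, Matrix.kroneckerMap_apply, Matrix.one_apply_eq, mul_one]
    · intro i' _ hi
      rw [Matrix.kroneckerMap_apply, Matrix.one_apply_ne (Ne.symm hi), mul_zero, zero_mul]
    · intro h
      exact absurd (Finset.mem_univ _) h
  have e4 : ∀ p q i j, (((1 : Matrix I I K) ⊗ₖ b) * om φ) (p, j) (q, i) =
      φ (Matrix.single i j 1 * b) p q := by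
    intro p q i j
    rw [single_mul_sum, map_sum, Matrix.sum_apply, Matrix.mul_apply, Fintype.sum_prod_type,
      Finset.sum_eq_single p]
    · refine Finset.sum_congr rfl fun i' _ => ?_
      rw [om_apply, Matrix.kroneckerMap_apply, Matrix.one_apply_eq, one_mul, map_smul,
        Matrix.smul_apply, smul_eq_mul]
    · intro q' _ hq
      refine Finset.sum_eq_zero fun i' _ => ?_
      rw [Matrix.kroneckerMap_apply, Matrix.one_apply_ne (Ne.symm hq), zero_mul, zero_mul]
    · intro h
      exact absurd (Finset.mem_univ _) h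
  ext ⟨p, j⟩ ⟨q, i⟩
  rw [mul_add, add_mul, Matrix.add_apply, Matrix.add_apply, e1, e2, e3, e4]
  have h1 := congrFun (congrFun (h (Matrix.single i j 1)) p) q
  rw [map_sub, Matrix.sub_apply, Matrix.sub_apply] at h1
  linear_combination h1

end Om

theorem J8 : S8 := by
  intro K _ _ I J _ _ _ _ T hbr h1 h2 hcomm x y hx hy
  obtain ⟨T', hT'⟩ : ∃ T' : Submodule K (Matrix I I K × Matrix J J K), T' =
    Submodule.span K {z | ∃ a ∈ T, ∃ b ∈ T, z = a * b - b * a} := ⟨_, rfl⟩
  have hle : T' ≤ T := by
    rw [hT']
    exact Submodule.span_le.2 (by rintro z ⟨a, ha, b, hb, rfl⟩; exact hbr a ha b hb)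
  have hbr' : ∀ a ∈ T, ∀ b ∈ T, a * b - b * a ∈ T' := fun a ha b hb => by
    rw [hT']
    exact Submodule.subset_span ⟨a, ha, b, hb, rfl⟩
  have htr : ∀ z ∈ T', z.1.trace = 0 ∧ z.2.trace = 0 := by
    intro z hz
    rw [hT'] at hz
    induction hz using Submodule.span_induction with
    | mem z hz =>
      obtain ⟨a, _, b, _, rfl⟩ := hz
      constructor
      · change (a.1 * b.1 - b.1 * a.1).trace = 0
        rw [Matrix.trace_sub, Matrix.trace_mul_comm, sub_self]
      · change (a.2 * b.2 - b.2 * a.2).trace = 0
        rw [Matrix.trace_sub, Matrix.trace_mul_comm, sub_self]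
    | zero => exact ⟨Matrix.trace_zero _ _, Matrix.trace_zero _ _⟩
    | add a b _ _ ha hb =>
      constructor
      · change (a.1 + b.1).trace = 0
        rw [Matrix.trace_add, ha.1, hb.1, add_zero]
      · change (a.2 + b.2).trace = 0
        rw [Matrix.trace_add, ha.2, hb.2, add_zero]
    | smul t a _ ha =>
      constructor
      · change (t • a.1).trace = 0
        rw [Matrix.trace_smul, ha.1, smul_zero]
      · change (t • a.2).trace = 0
        rw [Matrix.trace_smul, ha.2, smul_zero]
  have hs1 : ∀ x : Matrix I I K, x.trace = 0 → ∃ y, (x, y) ∈ T' := by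
    intro x hx
    have h := sl_perfect x hx
    clear hx
    induction h using Submodule.span_induction with
    | mem z hz =>
      obtain ⟨a, b, ha, hb, rfl⟩ := hz
      obtain ⟨a', ha'⟩ := h1 a ha
      obtain ⟨b', hb'⟩ := h1 b hb
      exact ⟨_, hbr' _ ha' _ hb'⟩
    | zero => exact ⟨0, T'.zero_mem⟩
    | add a b _ _ ha hb =>
      obtain ⟨a', ha'⟩ := ha
      obtain ⟨b', hb'⟩ := hb
      exact ⟨_, T'.add_mem ha' hb'⟩
    | smul t a _ ha =>
      obtain ⟨a', ha'⟩ := ha
      exact ⟨_, T'.smul_mem t ha'⟩
  have hs2 : ∀ y : Matrix J J K, y.trace = 0 → ∃ x, (x, y) ∈ T' := by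
    intro x hx
    have h := sl_perfect x hx
    clear hx
    induction h using Submodule.span_induction with
    | mem z hz =>
      obtain ⟨a, b, ha, hb, rfl⟩ := hz
      obtain ⟨a', ha'⟩ := h2 a ha
      obtain ⟨b', hb'⟩ := h2 b hb
      exact ⟨_, hbr' _ ha' _ hb'⟩
    | zero => exact ⟨0, T'.zero_mem⟩
    | add a b _ _ ha hb =>
      obtain ⟨a', ha'⟩ := ha
      obtain ⟨b', hb'⟩ := hb
      exact ⟨_, T'.add_mem ha' hb'⟩
    | smul t a _ ha =>
      obtain ⟨a', ha'⟩ := ha
      exact ⟨_, T'.smul_mem t ha'⟩
  by_cases hA : ∃ z : Matrix I I K, z ≠ 0 ∧ (z, (0 : Matrix J J K)) ∈ T'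
  · obtain ⟨z, hz0, hz⟩ := hA
    have h3 : ∀ x : Matrix I I K, x.trace = 0 →
        x ∈ T'.comap (LinearMap.inl K (Matrix I I K) (Matrix J J K)) := by
      refine sl_simple _ (fun x hx => (htr _ hx).1) (fun i j hij x hx => ?_) ?_
      · obtain ⟨y', hy'⟩ := hs1 _ (trace_single_ne (K := K) hij)
        have h4 := hbr' _ (hle hy') _ (hle hx)
        have h5 : (Matrix.single i j (1 : K), y') * LinearMap.inl K _ (Matrix J J K) x -
            LinearMap.inl K _ (Matrix J J K) x * (Matrix.single i j (1 : K), y') =
            LinearMap.inl K _ (Matrix J J K)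
              (Matrix.single i j 1 * x - x * Matrix.single i j 1) := by
          ext1
          · rfl
          · change y' * 0 - 0 * y' = 0
            rw [mul_zero, zero_mul, sub_zero]
        rw [h5] at h4
        exact h4
      · intro h
        apply hz0
        have h4 : z ∈ T'.comap (LinearMap.inl K (Matrix I I K) (Matrix J J K)) := hz
        rw [h] at h4
        exact (Submodule.mem_bot K).1 h4
    obtain ⟨x', hx'⟩ := hs2 y hy
    have h4 := h3 (x - x') (by rw [Matrix.trace_sub, hx, (htr _ hx').1, sub_zero])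
    have h5 := T'.add_mem hx' h4
    have h6 : (x', y) + LinearMap.inl K (Matrix I I K) (Matrix J J K) (x - x') = (x, y) := by
      ext1
      · change x' + (x - x') = x
        abel
      · change y + 0 = y
        rw [add_zero]
    rw [h6] at h5
    exact hle h5
  by_cases hB : ∃ z : Matrix J J K, z ≠ 0 ∧ ((0 : Matrix I I K), z) ∈ T'
  · obtain ⟨z, hz0, hz⟩ := hB
    have h3 : ∀ x : Matrix J J K, x.trace = 0 →
        x ∈ T'.comap (LinearMap.inr K (Matrix I I K) (Matrix J J K)) := by
      refine sl_simple _ (fun x hx => (htr _ hx).2) (fun i j hij x hx => ?_) ?_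
      · obtain ⟨y', hy'⟩ := hs2 _ (trace_single_ne (K := K) hij)
        have h4 := hbr' _ (hle hy') _ (hle hx)
        have h5 : (y', Matrix.single i j (1 : K)) * LinearMap.inr K (Matrix I I K) _ x -
            LinearMap.inr K (Matrix I I K) _ x * (y', Matrix.single i j (1 : K)) =
            LinearMap.inr K (Matrix I I K) _
              (Matrix.single i j 1 * x - x * Matrix.single i j 1) := by
          ext1
          · change y' * 0 - 0 * y' = 0
            rw [mul_zero, zero_mul, sub_zero]
          · rfl
        rw [h5] at h4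
        exact h4
      · intro h
        apply hz0
        have h4 : z ∈ T'.comap (LinearMap.inr K (Matrix I I K) (Matrix J J K)) := hz
        rw [h] at h4
        exact (Submodule.mem_bot K).1 h4
    obtain ⟨y', hy'⟩ := hs1 x hx
    have h4 := h3 (y - y') (by rw [Matrix.trace_sub, hy, (htr _ hy').2, sub_zero])
    have h5 := T'.add_mem hy' h4
    have h6 : (x, y') + LinearMap.inr K (Matrix I I K) (Matrix J J K) (y - y') = (x, y) := by
      ext1
      · change x + 0 = x
        rw [add_zero]
      · change y' + (y - y') = y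
        abel
    rw [h6] at h5
    exact hle h5
  have hA' : ∀ z : Matrix I I K, (z, (0 : Matrix J J K)) ∈ T' → z = 0 := by
    intro z hz
    by_contra hne
    exact hA ⟨z, hne, hz⟩
  have hB' : ∀ z : Matrix J J K, ((0 : Matrix I I K), z) ∈ T' → z = 0 := by
    intro z hz
    by_contra hne
    exact hB ⟨z, hne, hz⟩
  rcases Nat.lt_or_ge (Fintype.card I) 2 with hI | hI
  · obtain ⟨x', hx'⟩ := hs2 y hy
    have hz0 : ∀ z : Matrix I I K, z.trace = 0 → z = 0 := by
      intro z hz
      have hsub : Subsingleton I := Fintype.card_le_one_iff_subsingleton.1 (by omega)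
      ext i j
      have hij : j = i := Subsingleton.elim _ _
      subst hij
      have h3 : z.trace = z j j := by
        unfold Matrix.trace
        rw [Fintype.sum_subsingleton _ j]
        rfl
      rw [← h3, hz]
      rfl
    rw [hz0 x hx, ← hz0 x' (htr _ hx').1]
    exact hle hx'
  · exfalso
    -- the two cardinalities
    have hnI : Nonempty I := Fintype.card_pos_iff.1 (by omega)
    have hnJ : Nonempty J := by
      by_contra hcon
      rw [not_nonempty_iff] at hcon
      obtain ⟨i, j, hij⟩ := Fintype.exists_pair_of_one_lt_card (α := I) (by omega)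
      obtain ⟨b, hb⟩ := hs1 _ (trace_single_ne (K := K) hij)
      have hb0 : b = 0 := by
        ext i
        exact (hcon.false i).elim
      rw [hb0] at hb
      have h3 := congrFun (congrFun (hA' _ hb) i) j
      rw [Matrix.single_apply_same] at h3
      exact one_ne_zero h3
    have hf1 : Module.finrank K (LinearMap.ker (Matrix.traceLinearMap I K K)) =
        Module.finrank K T' := by
      have h3 : Function.Injective
          ((LinearMap.fst K (Matrix I I K) (Matrix J J K)).domRestrict T') := by
        rw [← LinearMap.ker_eq_bot, LinearMap.ker_eq_bot']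
        rintro ⟨⟨a, b⟩, hab⟩ hz
        have ha : a = 0 := hz
        subst ha
        have hb := hB' b hab
        subst hb
        rfl
      rw [← LinearMap.finrank_range_of_inj h3]
      have h4 : LinearMap.ker (Matrix.traceLinearMap I K K) = LinearMap.range
          ((LinearMap.fst K (Matrix I I K) (Matrix J J K)).domRestrict T') := by
        ext z
        rw [LinearMap.mem_ker, LinearMap.mem_range]
        constructor
        · intro hz
          obtain ⟨b, hb⟩ := hs1 z hz
          exact ⟨⟨(z, b), hb⟩, rfl⟩
        · rintro ⟨⟨⟨a, b⟩, hab⟩, rfl⟩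
          exact (htr _ hab).1
      rw [h4]
    have hf2 : Module.finrank K (LinearMap.ker (Matrix.traceLinearMap J K K)) =
        Module.finrank K T' := by
      have h3 : Function.Injective
          ((LinearMap.snd K (Matrix I I K) (Matrix J J K)).domRestrict T') := by
        rw [← LinearMap.ker_eq_bot, LinearMap.ker_eq_bot']
        rintro ⟨⟨a, b⟩, hab⟩ hz
        have ha : b = 0 := hz
        subst ha
        have hb := hA' a hab
        subst hb
        rfl
      rw [← LinearMap.finrank_range_of_inj h3]
      have h4 : LinearMap.ker (Matrix.traceLinearMap J K K) = LinearMap.range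
          ((LinearMap.snd K (Matrix I I K) (Matrix J J K)).domRestrict T') := by
        ext z
        rw [LinearMap.mem_ker, LinearMap.mem_range]
        constructor
        · intro hz
          obtain ⟨b, hb⟩ := hs2 z hz
          exact ⟨⟨(b, z), hb⟩, rfl⟩
        · rintro ⟨⟨⟨a, b⟩, hab⟩, rfl⟩
          exact (htr _ hab).2
      rw [h4]
    have hcard : Fintype.card I = Fintype.card J := by
      have h3 := finrank_sl K I
      have h4 := finrank_sl K J
      rw [hf1] at h3
      rw [hf2] at h4
      exact Nat.mul_self_inj.1 (h3.symm.trans h4)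
    -- the isomorphism
    obtain ⟨r, hr⟩ := ((LinearMap.snd K (Matrix I I K) (Matrix J J K)).domRestrict
      T').exists_leftInverse_of_injective (by
        rw [LinearMap.ker_eq_bot']
        rintro ⟨⟨a, b⟩, hab⟩ hz
        have ha : b = 0 := hz
        subst ha
        have hb := hA' a hab
        subst hb
        rfl)
    have hr' : ∀ a b (h : (a, b) ∈ T'), r b = ⟨(a, b), h⟩ := by
      intro a b h
      exact LinearMap.congr_fun hr ⟨(a, b), h⟩
    obtain ⟨φ, hφ⟩ : ∃ φ : Matrix J J K →ₗ[K] Matrix I I K, ∀ Z, φ Z =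
        (r (Z - ((Fintype.card J : K)⁻¹ * Z.trace) • 1)).1.1 := by
      refine ⟨{ toFun := fun Z => (r (Z - ((Fintype.card J : K)⁻¹ * Z.trace) • 1)).1.1
                map_add' := ?_
                map_smul' := ?_ }, fun Z => rfl⟩
      · intro Z W
        have h3 : Z + W - ((Fintype.card J : K)⁻¹ * (Z + W).trace) • (1 : Matrix J J K) =
            (Z - ((Fintype.card J : K)⁻¹ * Z.trace) • 1) +
            (W - ((Fintype.card J : K)⁻¹ * W.trace) • 1) := by
          rw [Matrix.trace_add, mul_add, add_smul]
          abel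
        rw [h3, map_add]
        rfl
      · intro t Z
        have h3 : t • Z - ((Fintype.card J : K)⁻¹ * (t • Z).trace) • (1 : Matrix J J K) =
            t • (Z - ((Fintype.card J : K)⁻¹ * Z.trace) • 1) := by
          rw [Matrix.trace_smul, smul_sub, smul_smul, smul_eq_mul]
          congr 2
          ring
        rw [h3, map_smul]
        rfl
    have hJ0 : (Fintype.card J : K) ≠ 0 := by
      have : 0 < Fintype.card J := Fintype.card_pos
      exact_mod_cast this.ne'
    have hφ1 : ∀ Z, (φ Z, Z - ((Fintype.card J : K)⁻¹ * Z.trace) • 1) ∈ T' := by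
      intro Z
      obtain ⟨a, ha⟩ := hs2 (Z - ((Fintype.card J : K)⁻¹ * Z.trace) • 1) (by
        rw [Matrix.trace_sub, Matrix.trace_smul, Matrix.trace_one, smul_eq_mul, mul_right_comm,
          inv_mul_cancel₀ hJ0, one_mul, sub_self])
      rw [hφ, hr' _ _ ha]
      exact ha
    have hφ2 : ∀ a b, (a, b) ∈ T' → φ b = a := by
      intro a b hab
      have hb : b.trace = 0 := (htr _ hab).2
      rw [hφ, hb, mul_zero, zero_smul, sub_zero, hr' _ _ hab]
    have hφ3 : ∀ p ∈ T, ∀ Z, φ (p.2 * Z - Z * p.2) = p.1 * φ Z - φ Z * p.1 := by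
      intro p hp Z
      refine hφ2 _ _ ?_
      have h3 := hbr' p hp _ (hle (hφ1 Z))
      have h4 : p * (φ Z, Z - ((Fintype.card J : K)⁻¹ * Z.trace) • (1 : Matrix J J K)) -
          (φ Z, Z - ((Fintype.card J : K)⁻¹ * Z.trace) • (1 : Matrix J J K)) * p =
          (p.1 * φ Z - φ Z * p.1, p.2 * Z - Z * p.2) := by
        ext1
        · rfl
        · change p.2 * (Z - ((Fintype.card J : K)⁻¹ * Z.trace) • (1 : Matrix J J K)) -
            (Z - ((Fintype.card J : K)⁻¹ * Z.trace) • (1 : Matrix J J K)) * p.2 =
            p.2 * Z - Z * p.2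
          rw [mul_sub, sub_mul, Matrix.mul_smul, Matrix.smul_mul, mul_one, one_mul]
          abel
      rw [h4] at h3
      exact h3
    obtain ⟨t, ht⟩ := hcomm hcard hI (om φ) fun a ha => om_comm φ a.1 a.2 (hφ3 a ha)
    obtain ⟨i, j, hij⟩ := Fintype.exists_pair_of_one_lt_card (α := J) (by omega)
    obtain ⟨a, ha⟩ := hs2 _ (trace_single_ne (K := K) hij)
    have h3 : φ (Matrix.single i j 1) = 0 := by
      ext p q
      rw [← om_apply, ht, Matrix.smul_apply, Matrix.one_apply_ne, smul_zero]
      · rfl
      · intro h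
        exact hij (congrArg Prod.snd h).symm
    have h4 := hφ2 _ _ ha
    rw [h3] at h4
    rw [← h4] at ha
    have h5 := congrFun (congrFun (hB' _ ha) i) j
    rw [Matrix.single_apply_same] at h5
    exact one_ne_zero h5

end Pool.Agent.Q75.EX
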