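import Pool.Agent.Q50.EX.Spec
import Pool.Agent.Q75.EX.Sl

/-!
# A bracket-closed space of block matrices whose blocks are separated (J9)
-/

set_option autoImplicit false

namespace Pool.Agent.Q75.EX

open Matrix Pool.Agent.Q50.EX Pool.Agent.Q50.LR Pool.Agent.Q50.SR

theorem blk_mul {K : Type} [Field K] {n e : ℕ} {c : Fin n → Fin e}
    {x y : Matrix (Fin n) (Fin n) K} (hx : Respects c x) (σ : Fin e) :
    (x * y).toSquareBlock c σ = x.toSquareBlock c σ * y.toSquareBlock c σ := by
  ext ⟨i, hi⟩ ⟨j, hj⟩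
  change (x * y) i j = ∑ k : {k // c k = σ}, x i k * y k j
  rw [Matrix.mul_apply, ← Finset.sum_subtype (Finset.univ.filter fun k => c k = σ) (by simp)
    (fun k => x i k * y k j)]
  symm
  refine Finset.sum_subset (Finset.filter_subset _ _) fun k _ hk => ?_
  have h1 : c i ≠ c k := by
    intro h
    apply hk
    rw [Finset.mem_filter]
    exact ⟨Finset.mem_univ k, by rw [← h, hi]⟩
  rw [hx i k h1, zero_mul]

theorem blk_sub {K : Type} [Field K] {n e : ℕ} (c : Fin n → Fin e)
    (x y : Matrix (Fin n) (Fin n) K) (σ : Fin e) :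
    (x - y).toSquareBlock c σ = x.toSquareBlock c σ - y.toSquareBlock c σ := rfl

theorem blk_add {K : Type} [Field K] {n e : ℕ} (c : Fin n → Fin e)
    (x y : Matrix (Fin n) (Fin n) K) (σ : Fin e) :
    (x + y).toSquareBlock c σ = x.toSquareBlock c σ + y.toSquareBlock c σ := rfl

theorem blk_smul {K : Type} [Field K] {n e : ℕ} (c : Fin n → Fin e)
    (a : K) (y : Matrix (Fin n) (Fin n) K) (σ : Fin e) :
    (a • y).toSquareBlock c σ = a • y.toSquareBlock c σ := rfl

theorem blk_zero {K : Type} [Field K] {n e : ℕ} (c : Fin n → Fin e) (σ : Fin e) :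
    (0 : Matrix (Fin n) (Fin n) K).toSquareBlock c σ = 0 := rfl

theorem J9 : S9 := by
  intro K _ _ n e c L hbr hres hsurj hpair x hx htr
  -- a colour against a finite set of colours
  have key : ∀ σ, ∀ s : Finset (Fin e), σ ∉ s →
      ∀ y : Matrix {i // c i = σ} {i // c i = σ} K, y.trace = 0 →
      ∃ x ∈ L, x.toSquareBlock c σ = y ∧ ∀ τ ∈ s, x.toSquareBlock c τ = 0 := by
    intro σ s
    induction s using Finset.induction_on with
    | empty =>
      intro _ y hy
      obtain ⟨x, hxL, hxy⟩ := hsurj σ y hy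
      exact ⟨x, hxL, hxy, fun τ hτ => absurd hτ (Finset.notMem_empty τ)⟩
    | insert τ s hτ ih =>
      intro hσ y hy
      have hσs : σ ∉ s := fun h => hσ (Finset.mem_insert_of_mem h)
      have hστ : σ ≠ τ := fun h => hσ (h ▸ Finset.mem_insert_self τ s)
      have h1 := sl_perfect y hy
      clear hy
      induction h1 using Submodule.span_induction with
      | mem z hz =>
        obtain ⟨a, b, ha, hb, rfl⟩ := hz
        obtain ⟨xa, hxa, hxa1, hxa2⟩ := ih hσs a ha
        obtain ⟨xb, hxb, hxb1, hxb2⟩ := hpair σ τ hστ b hb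
        refine ⟨xa * xb - xb * xa, hbr _ hxa _ hxb, ?_, ?_⟩
        · rw [blk_sub, blk_mul (hres _ hxa), blk_mul (hres _ hxb), hxa1, hxb1]
        · intro τ' hτ'
          rw [blk_sub, blk_mul (hres _ hxa), blk_mul (hres _ hxb)]
          rcases Finset.mem_insert.1 hτ' with h | h
          · subst h
            rw [hxb2, mul_zero, zero_mul, sub_zero]
          · rw [hxa2 τ' h, mul_zero, zero_mul, sub_zero]
      | zero => exact ⟨0, L.zero_mem, blk_zero c σ, fun τ _ => blk_zero c τ⟩
      | add a b _ _ iha ihb =>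
        obtain ⟨xa, hxa, hxa1, hxa2⟩ := iha
        obtain ⟨xb, hxb, hxb1, hxb2⟩ := ihb
        refine ⟨xa + xb, L.add_mem hxa hxb, ?_, fun τ' hτ' => ?_⟩
        · rw [blk_add, hxa1, hxb1]
        · rw [blk_add, hxa2 τ' hτ', hxb2 τ' hτ', add_zero]
      | smul t a _ iha =>
        obtain ⟨xa, hxa, hxa1, hxa2⟩ := iha
        refine ⟨t • xa, L.smul_mem t hxa, ?_, fun τ' hτ' => ?_⟩
        · rw [blk_smul, hxa1]
        · rw [blk_smul, hxa2 τ' hτ', smul_zero]
  choose X hX1 hX2 hX3 using fun σ => key σ (Finset.univ.erase σ) (Finset.notMem_erase σ _)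
    (x.toSquareBlock c σ) (htr σ)
  have h2 : x = ∑ σ, X σ := by
    ext i j
    rw [Matrix.sum_apply]
    by_cases hij : c i = c j
    · rw [Finset.sum_eq_single (c i)]
      · have h3 := congrFun (congrFun (hX2 (c i)) ⟨i, rfl⟩) ⟨j, hij.symm⟩
        exact h3.symm
      · intro τ _ hτ
        have h3 := congrFun (congrFun (hX3 τ (c i) (Finset.mem_erase.2
          ⟨Ne.symm hτ, Finset.mem_univ _⟩)) ⟨i, rfl⟩) ⟨j, hij.symm⟩
        exact h3
      · intro h
        exact absurd (Finset.mem_univ _) h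
    · rw [hx i j hij]
      symm
      refine Finset.sum_eq_zero fun σ _ => ?_
      exact hres _ (hX1 σ) i j hij
  rw [h2]
  exact Submodule.sum_mem _ fun σ _ => hX1 σ

end Pool.Agent.Q75.EX
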